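import Pool.Agent.W217.BE.Stm2

set_option autoImplicit false

namespace Pool.Agent.W174.BEZREG

open Pool.Agent.W217.BE Polynomial

theorem main : ZREG := by
  intro C _ M _ _ _ _ N hN hX x hx
  classical
  letI := hN.chooseDecomposition
  have key : ∀ (y : M) (t : ℤ),
      ((DirectSum.decompose N ((X : C[X]) • y) (t + 1) : N (t + 1)) : M) =
        (X : C[X]) • ((DirectSum.decompose N y t : N t) : M) := by
    intro y t
    induction y using DirectSum.Decomposition.inductionOn N with
    | zero => simp
    | @homogeneous i m =>
      have h1 := hX i m m.2
      by_cases h : i = t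
      · subst h
        rw [DirectSum.decompose_of_mem_same N h1, DirectSum.decompose_of_mem_same N m.2]
      · rw [DirectSum.decompose_of_mem_ne N h1 (fun h' => h (by omega)),
          DirectSum.decompose_of_mem_ne N m.2 h, smul_zero]
    | add y z ihy ihz =>
      rw [smul_add, DirectSum.decompose_add, DirectSum.decompose_add, DirectSum.add_apply,
        DirectSum.add_apply, Submodule.coe_add, Submodule.coe_add, ihy, ihz, smul_add]
  have hxx : (X : C[X]) • x = x := by
    rw [sub_smul, one_smul] at hx
    exact sub_eq_zero.1 hx
  have step : ∀ t : ℤ, ((DirectSum.decompose N x (t + 1) : N (t + 1)) : M) =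
      (X : C[X]) • ((DirectSum.decompose N x t : N t) : M) := by
    intro t
    have := key x t
    rwa [hxx] at this
  have hz : ∀ t : ℤ, ((DirectSum.decompose N x t : N t) : M) = 0 := by
    have hS := (DFinsupp.support (DirectSum.decompose N x)).finite_toSet
    obtain ⟨B, hB⟩ := hS.bddBelow
    have h0 : ∀ t : ℤ, t < B → ((DirectSum.decompose N x t : N t) : M) = 0 := by
      intro t ht
      by_contra hne
      have : t ∈ (DFinsupp.support (DirectSum.decompose N x) : Set ℤ) := by
        rw [Finset.mem_coe, DFinsupp.mem_support_iff]
        intro h
        apply hne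
        rw [h]
        rfl
      exact absurd (hB this) (not_le.2 ht)
    have h1 : ∀ k : ℕ, ((DirectSum.decompose N x (B - 1 + k) : N (B - 1 + k)) : M) = 0 := by
      intro k
      induction k with
      | zero =>
        apply h0
        push_cast
        omega
      | succ k ih =>
        have h2 := step (B - 1 + k)
        rw [ih, smul_zero] at h2
        have h3 : B - 1 + (k : ℤ) + 1 = B - 1 + ((k + 1 : ℕ) : ℤ) := by push_cast; ring
        rw [← h3]
        exact h2
    intro t
    by_cases ht : t < B
    · exact h0 t ht
    · have h4 := h1 (t - (B - 1)).toNat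
      have h5 : B - 1 + ((t - (B - 1)).toNat : ℤ) = t := by omega
      rwa [h5] at h4
  have : DirectSum.decompose N x = 0 := by
    apply DFinsupp.ext
    intro t
    apply Subtype.ext
    exact hz t
  have h6 := congrArg (DirectSum.decompose N).symm this
  simpa using h6

end Pool.Agent.W174.BEZREG
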